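import Pool.Agent.W761.CP.Defs

/-!
Project CP, part IN2: the eigenvalues of the inner operator below the gap.
-/

set_option autoImplicit false

open MeasureTheory
open scoped ENNReal FourierTransform SchwartzMap InnerProductSpace

namespace Pool.Agent.W762.CP
open Pool.Agent.W761.CP
open Pool.Agent.Helper209.CX (Ed L2d)

/-! ## complex conjugation on `L²` -/

lemma st_add {d : ℕ} (x y : L2d d) : (star (x + y) : L2d d) = star x + star y := by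
  apply Lp.ext
  filter_upwards [Lp.coeFn_star (x + y), Lp.coeFn_add (star x) (star y), Lp.coeFn_star x,
    Lp.coeFn_star y, Lp.coeFn_add x y] with t h1 h2 h3 h4 h5
  rw [h1, h2]
  simp only [Pi.star_apply, Pi.add_apply, h3, h4, h5, star_add]

lemma st_smul {d : ℕ} (c : ℂ) (x : L2d d) :
    (star (c • x) : L2d d) = (starRingEnd ℂ) c • star x := by
  apply Lp.ext
  filter_upwards [Lp.coeFn_star (c • x), Lp.coeFn_smul ((starRingEnd ℂ) c) (star x),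
    Lp.coeFn_star x, Lp.coeFn_smul c x] with t h1 h2 h3 h4
  rw [h1, h2]
  simp only [Pi.star_apply, Pi.smul_apply, h3, h4, smul_eq_mul, star_mul', starRingEnd_apply]

lemma st_inner {d : ℕ} (x y : L2d d) : ⟪(star x : L2d d), star y⟫_ℂ = ⟪y, x⟫_ℂ := by
  rw [L2.inner_def, L2.inner_def]
  apply integral_congr_ae
  filter_upwards [Lp.coeFn_star x, Lp.coeFn_star y] with t h1 h2
  simp only [h1, h2, Pi.star_apply, RCLike.inner_apply, RCLike.star_def, RCLike.conj_conj]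
  ring

/-! ## finite rank operators -/

lemma compact_of_fin {X : Type} [NormedAddCommGroup X] [InnerProductSpace ℂ X]
    (A : X →L[ℂ] X) [FiniteDimensional ℂ (LinearMap.range (A : X →ₗ[ℂ] X))] :
    IsCompactOperator A := by
  have hp : ProperSpace (LinearMap.range (A : X →ₗ[ℂ] X)) := FiniteDimensional.proper ℂ _
  have h1 : IsCompactOperator (A.codRestrict (LinearMap.range (A : X →ₗ[ℂ] X))
      (fun x => ⟨x, rfl⟩)) :=
    isCompactOperator_of_locallyCompactSpace_dom _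
  have h2 := h1.clm_comp (LinearMap.range (A : X →ₗ[ℂ] X)).subtypeL
  exact h2

lemma ker_ne {X : Type} [NormedAddCommGroup X] [InnerProductSpace ℂ X]
    (A : X →L[ℂ] X) [FiniteDimensional ℂ (LinearMap.range (A : X →ₗ[ℂ] X))] (N : ℕ)
    (hN : Module.finrank ℂ (LinearMap.range (A : X →ₗ[ℂ] X)) < N) (w : Fin N → X)
    (hw : LinearIndependent ℂ w) :
    ∃ s : Fin N → ℂ, ∑ i, s i • w i ≠ 0 ∧ A (∑ i, s i • w i) = 0 := by
  let L : (Fin N → ℂ) →ₗ[ℂ] LinearMap.range (A : X →ₗ[ℂ] X) :=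
    (A : X →ₗ[ℂ] X).rangeRestrict ∘ₗ Fintype.linearCombination ℂ w
  have hL : LinearMap.ker L ≠ ⊥ := by
    apply LinearMap.ker_ne_bot_of_finrank_lt
    simpa using hN
  obtain ⟨s, hs, hs0⟩ := Submodule.exists_mem_ne_zero_of_ne_bot hL
  refine ⟨s, ?_, ?_⟩
  · intro h0
    apply hs0
    have := (Fintype.linearIndependent_iff.1 hw) s h0
    exact funext this
  · have h1 : L s = 0 := hs
    have h2 := congrArg Subtype.val h1
    simpa [L, Fintype.linearCombination_apply] using h2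

/-! ## weak gradients -/

lemma int_mul {d : ℕ} (u : L2d d) (φ : 𝓢(Ed d, ℂ)) : Integrable (fun x => u x * φ x) volume :=
  MemLp.integrable_mul (Lp.memLp u) (φ.memLp 2 volume)

lemma int_mul' {d : ℕ} (u : L2d d) (φ : 𝓢(Ed d, ℂ)) (k : Fin d) :
    Integrable (fun x => u x * fderiv ℝ (fun y => φ y) x (ev k)) volume :=
  int_mul u (SchwartzMap.evalCLM ℝ (Ed d) ℂ (ev k) (SchwartzMap.fderivCLM ℝ (Ed d) ℂ φ))

lemma grad_zero {d : ℕ} : IsGrad (0 : L2d d) (fun _ => 0) := by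
  intro φ k
  have h0 : (fun x => (0 : L2d d) x) =ᵐ[volume] fun _ => 0 := Lp.coeFn_zero ..
  have h1 : ∫ x, (0 : L2d d) x * fderiv ℝ (fun y => φ y) x (ev k) = 0 := by
    rw [integral_congr_ae (g := fun _ => 0)]
    · simp
    · filter_upwards [h0] with x hx
      rw [hx, zero_mul]
  have h2 : ∫ x, (0 : L2d d) x * φ x = 0 := by
    rw [integral_congr_ae (g := fun _ => 0)]
    · simp
    · filter_upwards [h0] with x hx
      rw [hx, zero_mul]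
  rw [h1, h2, neg_zero]

lemma grad_add {d : ℕ} {u v : L2d d} {g g' : Fin d → L2d d} (hu : IsGrad u g)
    (hv : IsGrad v g') : IsGrad (u + v) (fun k => g k + g' k) := by
  intro φ k
  have h1 : ∫ x, (u + v : L2d d) x * fderiv ℝ (fun y => φ y) x (ev k) =
      ∫ x, (u x * fderiv ℝ (fun y => φ y) x (ev k) + v x * fderiv ℝ (fun y => φ y) x (ev k)) := by
    apply integral_congr_ae
    filter_upwards [Lp.coeFn_add u v] with x hx
    rw [hx, Pi.add_apply, add_mul]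
  have h2 : ∫ x, (g k + g' k : L2d d) x * φ x = ∫ x, (g k x * φ x + g' k x * φ x) := by
    apply integral_congr_ae
    filter_upwards [Lp.coeFn_add (g k) (g' k)] with x hx
    rw [hx, Pi.add_apply, add_mul]
  rw [h1, h2, integral_add (int_mul' u φ k) (int_mul' v φ k),
    integral_add (int_mul _ φ) (int_mul _ φ), hu φ k, hv φ k]
  ring

lemma grad_smul {d : ℕ} {u : L2d d} {g : Fin d → L2d d} (c : ℂ) (hu : IsGrad u g) :
    IsGrad (c • u) (fun k => c • g k) := by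
  intro φ k
  have h1 : ∫ x, (c • u : L2d d) x * fderiv ℝ (fun y => φ y) x (ev k) =
      ∫ x, c * (u x * fderiv ℝ (fun y => φ y) x (ev k)) := by
    apply integral_congr_ae
    filter_upwards [Lp.coeFn_smul c u] with x hx
    rw [hx, Pi.smul_apply, smul_eq_mul, mul_assoc]
  have h2 : ∫ x, (c • g k : L2d d) x * φ x = ∫ x, c * (g k x * φ x) := by
    apply integral_congr_ae
    filter_upwards [Lp.coeFn_smul c (g k)] with x hx
    rw [hx, Pi.smul_apply, smul_eq_mul, mul_assoc]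
  rw [h1, h2, integral_const_mul, integral_const_mul, hu φ k]
  ring

lemma grad_sum {d N : ℕ} (θ : Fin N → L2d d) (g : Fin N → Fin d → L2d d) (s : Fin N → ℂ)
    (hg : ∀ i, IsGrad (θ i) (g i)) :
    IsGrad (∑ i, s i • θ i) (fun k => ∑ i, s i • g i k) := by
  classical
  have h : ∀ S : Finset (Fin N),
      IsGrad (∑ i ∈ S, s i • θ i) (fun k => ∑ i ∈ S, s i • g i k) := by
    intro S
    induction S using Finset.induction_on with
    | empty => simp [grad_zero]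
    | insert a S ha ih =>
      simp only [Finset.sum_insert ha]
      exact grad_add (grad_smul (s a) (hg a)) ih
  exact h Finset.univ

lemma ae_sum {d N : ℕ} (θ : Fin N → L2d d) (s : Fin N → ℂ) (S : Set (Ed d))
    (h0 : ∀ i, ∀ᵐ x, x ∉ S → (θ i) x = 0) : ∀ᵐ x, x ∉ S → (∑ i, s i • θ i : L2d d) x = 0 := by
  classical
  have h : ∀ A : Finset (Fin N), ∀ᵐ x, x ∉ S → (∑ i ∈ A, s i • θ i : L2d d) x = 0 := by
    intro A
    induction A using Finset.induction_on with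
    | empty =>
      have h0 : (fun x => (0 : L2d d) x) =ᵐ[volume] fun _ => 0 := Lp.coeFn_zero ..
      filter_upwards [h0] with x hx _
      simpa using hx
    | insert a A ha ih =>
      simp only [Finset.sum_insert ha]
      filter_upwards [ih, h0 a, Lp.coeFn_add (s a • θ a) (∑ i ∈ A, s i • θ i),
        Lp.coeFn_smul (s a) (θ a)] with x h1 h2 h3 h4 hx
      rw [h3, Pi.add_apply, h4, Pi.smul_apply, h1 hx, h2 hx]
      simp
  exact h Finset.univ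

/-! ## the a priori bound on the circle -/

lemma apriori {X : Type} [NormedAddCommGroup X] [InnerProductSpace ℂ X]
    (H : Submodule ℂ (X × X)) (l η : ℝ) (hl : 2 ≤ l) (hη : 0 < η) (hη1 : η ≤ 1)
    (hpos : ∀ u f, (u, f) ∈ H → 0 ≤ (⟪u, f⟫_ℂ).re ∧ (⟪u, f⟫_ℂ).im = 0)
    (hgap : ∀ v f, (v, (l : ℂ) • v + f) ∈ H → η * ‖v‖ ≤ ‖f‖) (z : ℂ)
    (hz : ‖z - (((l - 1 / 2) / 2 : ℝ) : ℂ)‖ = (l + 1 / 2) / 2) (u f : X)
    (hu : (u, f + z • u) ∈ H) :
    ‖u‖ ≤ (2 / η + 4 + 2 / (η ^ 2 / (4 * (l + 1 / 2)))) * ‖f‖ := by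
  obtain ⟨x, hx⟩ : ∃ x, x = z.re := ⟨_, rfl⟩
  obtain ⟨y, hy⟩ : ∃ y, y = z.im := ⟨_, rfl⟩
  obtain ⟨δ, hδ⟩ : ∃ δ, δ = η ^ 2 / (4 * (l + 1 / 2)) := ⟨_, rfl⟩
  rw [← hδ]
  have hl0 : 0 < 4 * (l + 1 / 2) := by linarith
  have hδ0 : 0 < δ := by rw [hδ]; positivity
  have hδ1 : δ ≤ 1 := by
    rw [hδ, div_le_one hl0]
    nlinarith
  have hδe : δ * (4 * (l + 1 / 2)) = η ^ 2 := by
    rw [hδ, div_mul_cancel₀ _ hl0.ne']
  have hc : (x - (l - 1 / 2) / 2) ^ 2 + y ^ 2 = ((l + 1 / 2) / 2) ^ 2 := by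
    rw [← hz, ← Complex.normSq_eq_norm_sq, Complex.normSq_apply, hx, hy]
    simp
    ring
  have hc1 : y ^ 2 = (l - x) * (x + 1 / 2) := by nlinarith
  have hc2 : (x - l) ^ 2 + y ^ 2 = (l - x) * (l + 1 / 2) := by rw [hc1]; ring
  have hzl : ‖z - (l : ℂ)‖ ^ 2 = (l - x) * (l + 1 / 2) := by
    rw [← hc2, ← Complex.normSq_eq_norm_sq, Complex.normSq_apply, hx, hy]
    simp
    ring
  obtain ⟨hp1, hp2⟩ := hpos _ _ hu
  have hin : ⟪u, f + z • u⟫_ℂ = ⟪u, f⟫_ℂ + z * ((‖u‖ ^ 2 : ℝ) : ℂ) := by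
    rw [inner_add_right, inner_smul_right, inner_self_eq_norm_sq_to_K]
    norm_cast
  have hre : (⟪u, f⟫_ℂ).re + x * ‖u‖ ^ 2 = (⟪u, f + z • u⟫_ℂ).re := by
    rw [hin, Complex.add_re, Complex.re_mul_ofReal, hx]
  have him : (⟪u, f⟫_ℂ).im + y * ‖u‖ ^ 2 = (⟪u, f + z • u⟫_ℂ).im := by
    rw [hin, Complex.add_im, Complex.im_mul_ofReal, hy]
  have hcs : ‖⟪u, f⟫_ℂ‖ ≤ ‖u‖ * ‖f‖ := norm_inner_le_norm u f
  have hcr : |(⟪u, f⟫_ℂ).re| ≤ ‖u‖ * ‖f‖ := (Complex.abs_re_le_norm _).trans hcs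
  have hci : |(⟪u, f⟫_ℂ).im| ≤ ‖u‖ * ‖f‖ := (Complex.abs_im_le_norm _).trans hcs
  have hf0 := norm_nonneg f
  have hK1 : 0 ≤ 2 / η * ‖f‖ := by positivity
  have hK2 : 0 ≤ 2 / δ * ‖f‖ := by positivity
  rcases eq_or_ne u 0 with hu0 | hu0
  · rw [hu0, norm_zero]
    positivity
  have hun : 0 < ‖u‖ := norm_pos_iff.2 hu0
  have hA1 : -x * ‖u‖ ≤ ‖f‖ := by
    have h1 : (-x * ‖u‖) * ‖u‖ ≤ ‖f‖ * ‖u‖ := by
      have := (abs_le.1 hcr).2
      nlinarith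
    exact le_of_mul_le_mul_right h1 hun
  have hA2 : |y| * ‖u‖ ≤ ‖f‖ := by
    have h1 : (|y| * ‖u‖) * ‖u‖ ≤ ‖f‖ * ‖u‖ := by
      have h2 : |y| * (‖u‖ ^ 2) = |y * ‖u‖ ^ 2| := by
        rw [abs_mul, abs_of_nonneg (sq_nonneg ‖u‖)]
      have h3 : y * ‖u‖ ^ 2 = -(⟪u, f⟫_ℂ).im := by linarith
      rw [mul_assoc, ← sq, h2, h3, abs_neg]
      linarith
    exact le_of_mul_le_mul_right h1 hun
  have hA3 : η * ‖u‖ ≤ ‖f‖ + ‖z - (l : ℂ)‖ * ‖u‖ := by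
    have h1 : (u, (l : ℂ) • u + (f + (z - (l : ℂ)) • u)) ∈ H := by
      have h2 : (l : ℂ) • u + (f + (z - (l : ℂ)) • u) = f + z • u := by module
      rw [h2]
      exact hu
    refine (hgap _ _ h1).trans ((norm_add_le _ _).trans ?_)
    rw [norm_smul]
  by_cases hcase : ‖z - (l : ℂ)‖ ≤ η / 2
  · have h1 : η / 2 * ‖u‖ ≤ ‖f‖ := by nlinarith
    have h2 : ‖u‖ ≤ 2 / η * ‖f‖ := by
      have h3 : ‖u‖ = 2 / η * (η / 2 * ‖u‖) := by field_simp
      rw [h3]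
      exact mul_le_mul_of_nonneg_left h1 (by positivity)
    nlinarith
  · have hcase' := not_le.1 hcase
    have h1 : δ < l - x := by
      have h2 : (η / 2) ^ 2 < ‖z - (l : ℂ)‖ ^ 2 := pow_lt_pow_left₀ hcase' (by positivity) (by norm_num)
      rw [hzl] at h2
      have h3 : δ * (l + 1 / 2) < (l - x) * (l + 1 / 2) := by nlinarith
      exact lt_of_mul_lt_mul_right h3 (by linarith)
    by_cases hx4 : x ≤ -(1 / 4)
    · have h2 : ‖u‖ ≤ 4 * ‖f‖ := by nlinarith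
      nlinarith
    · have hx4' := not_le.1 hx4
      have h2 : (δ / 2) ^ 2 ≤ |y| ^ 2 := by
        rw [sq_abs, hc1]
        nlinarith
      have h3 : δ / 2 ≤ |y| := by
        exact le_of_sq_le_sq h2 (abs_nonneg y)
      have h4 : δ / 2 * ‖u‖ ≤ ‖f‖ := (mul_le_mul_of_nonneg_right h3 hun.le).trans hA2
      have h5 : ‖u‖ ≤ 2 / δ * ‖f‖ := by
        have h6 : ‖u‖ = 2 / δ * (δ / 2 * ‖u‖) := by field_simp
        rw [h6]
        exact mul_le_mul_of_nonneg_left h4 (by positivity)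
      nlinarith

/-! ## counting -/

lemma meas_Gd (d : ℕ) : MeasurableSet (Gd d) := by
  apply IsClosed.measurableSet
  have h : Gd d = ⋂ k : Fin d, ({x : Ed d | 0 ≤ x k} ∩ {x : Ed d | x k ≤ 1}) := by
    ext x
    simp [Gd]
  rw [h]
  apply isClosed_iInter
  intro k
  have hc : Continuous fun x : Ed d => x k := by fun_prop
  exact (isClosed_le continuous_const hc).inter (isClosed_le hc continuous_const)

lemma norm_sq_int {d : ℕ} (u : L2d d) : ‖u‖ ^ 2 = ∫ x, ‖u x‖ ^ 2 := by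
  have h1 : ((‖u‖ ^ 2 : ℝ) : ℂ) = ⟪u, u⟫_ℂ := by
    rw [inner_self_eq_norm_sq_to_K]
    norm_cast
  have h2 : ⟪u, u⟫_ℂ = ∫ x, ((‖u x‖ ^ 2 : ℝ) : ℂ) := by
    rw [L2.inner_def]
    congr 1
    funext x
    rw [inner_self_eq_norm_sq_to_K]
    norm_cast
  have h3 : ∫ x, ((‖u x‖ ^ 2 : ℝ) : ℂ) = ((∫ x, ‖u x‖ ^ 2 : ℝ) : ℂ) := integral_ofReal
  exact Complex.ofReal_injective (h1.trans (h2.trans h3))

lemma int_sq {d : ℕ} (u : L2d d) : Integrable (fun x => ‖u x‖ ^ 2) volume := by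
  have := (Lp.memLp u).integrable_norm_pow (by norm_num)
  simpa using this

/-- at most `m ^ d` eigenvalues -/
lemma count_up (hE0 : S_E0) {d : ℕ} (h M C l : ℝ) (m : ℕ) (Q : L2d d →L[ℂ] L2d d)
    (V : Ed d → ℂ) (hV : FB V) (hV0 : ∀ x, 0 ≤ (V x).re) (hVM : ∀ x, x ∉ Gd d → M ≤ (V x).re)
    (hQ : Proj C m Q) (hM : 0 < M) (hC : 0 < C) (hm : 1 ≤ m)
    (hCM : 4 * C * M ≤ m ^ 2 * h ^ 2) (hl : l < M)
    (H : Submodule ℂ (L2d d × L2d d)) (hH : ∀ u f, (u, f) ∈ H ↔ Hu h V u f)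
    (n : ℕ) (ψ : Fin n → L2d d) (E : Fin n → ℝ) (hψ : Orthonormal ℂ ψ)
    (hE : ∀ j, (ψ j, (E j : ℂ) • ψ j) ∈ H) (hEl : ∀ j, E j ≤ l) : n ≤ m ^ d := by
  by_contra hcon
  have hlt : Module.finrank ℂ (LinearMap.range (Q : L2d d →ₗ[ℂ] L2d d)) < n :=
    lt_of_le_of_lt hQ.rank (not_le.1 hcon)
  have := hQ.fin
  obtain ⟨s, hs, hQs⟩ := ker_ne Q n hlt ψ hψ.linearIndependent
  obtain ⟨u, hu⟩ : ∃ u, u = ∑ i, s i • ψ i := ⟨_, rfl⟩
  rw [← hu] at hs hQs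
  have hmem : (u, ∑ i, (s i * (E i : ℂ)) • ψ i) ∈ H := by
    have h1 : ∑ i, s i • ((ψ i, (E i : ℂ) • ψ i) : L2d d × L2d d) ∈ H :=
      Submodule.sum_mem _ fun i _ => H.smul_mem _ (hE i)
    have h2 : ∑ i, s i • ((ψ i, (E i : ℂ) • ψ i) : L2d d × L2d d) =
        (u, ∑ i, (s i * (E i : ℂ)) • ψ i) := by
      ext1
      · simp [Prod.fst_sum, hu]
      · simp [Prod.snd_sum, mul_smul]
    rw [← h2]
    exact h1
  have hHu := (hH _ _).1 hmem
  obtain ⟨g, hg, _⟩ := hHu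
  have hen := (hE0 d h V u _ g hV ((hH _ _).1 hmem) hg).1
  have hin : (⟪u, ∑ i, (s i * (E i : ℂ)) • ψ i⟫_ℂ).re = ∑ i, E i * ‖s i‖ ^ 2 := by
    rw [hu, hψ.inner_sum, Complex.re_sum]
    apply Finset.sum_congr rfl
    intro i _
    rw [← mul_assoc, ← Complex.normSq_eq_conj_mul_self, ← Complex.ofReal_mul, Complex.ofReal_re,
      Complex.normSq_eq_norm_sq]
    ring
  have hnn : ‖u‖ ^ 2 = ∑ i, ‖s i‖ ^ 2 := by
    have h1 : ((‖u‖ ^ 2 : ℝ) : ℂ) = ⟪u, u⟫_ℂ := by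
      rw [inner_self_eq_norm_sq_to_K]
      norm_cast
    rw [hu, hψ.inner_sum] at h1
    have h2 : ∑ i, (starRingEnd ℂ) (s i) * s i = ((∑ i, ‖s i‖ ^ 2 : ℝ) : ℂ) := by
      rw [Complex.ofReal_sum]
      apply Finset.sum_congr rfl
      intro i _
      rw [← Complex.normSq_eq_conj_mul_self, Complex.normSq_eq_norm_sq]
    rw [h2] at h1
    rw [hu]
    exact_mod_cast h1
  have hle : ∑ i, E i * ‖s i‖ ^ 2 ≤ l * ‖u‖ ^ 2 := by
    rw [hnn, Finset.mul_sum]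
    exact Finset.sum_le_sum fun i _ => mul_le_mul_of_nonneg_right (hEl i) (sq_nonneg _)
  have hun : 0 < ‖u‖ ^ 2 := by
    have := norm_pos_iff.2 hs
    positivity
  have hpoi := hQ.poi u g hg
  rw [hQs, norm_zero] at hpoi
  obtain ⟨hFm, C', hC', hFB⟩ := hV
  have hVi0 := (hFB u g hg).1
  have hVi : Integrable (fun x => (V x).re * ‖u x‖ ^ 2) volume := by
    refine hVi0.mono' ?_ ?_
    · exact (Complex.measurable_re.comp hFm).aestronglyMeasurable.mul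
        (int_sq u).aestronglyMeasurable
    · refine Filter.Eventually.of_forall fun x => ?_
      rw [norm_mul, Real.norm_eq_abs, Real.norm_eq_abs, abs_of_nonneg (sq_nonneg ‖u x‖)]
      exact mul_le_mul_of_nonneg_right (Complex.abs_re_le_norm _) (sq_nonneg _)
  have hout : M * ∫ x in (Gd d)ᶜ, ‖u x‖ ^ 2 ≤ ∫ x, (V x).re * ‖u x‖ ^ 2 := by
    rw [← integral_const_mul]
    calc ∫ x in (Gd d)ᶜ, M * ‖u x‖ ^ 2 ≤ ∫ x in (Gd d)ᶜ, (V x).re * ‖u x‖ ^ 2 := by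
          apply setIntegral_mono_on ((int_sq u).integrableOn.const_mul M) hVi.integrableOn
            (meas_Gd d).compl
          intro x hx
          exact mul_le_mul_of_nonneg_right (hVM x hx) (sq_nonneg _)
      _ ≤ ∫ x, (V x).re * ‖u x‖ ^ 2 := by
          apply setIntegral_le_integral hVi
          exact Filter.Eventually.of_forall fun x => mul_nonneg (hV0 x) (sq_nonneg _)
  have hsplit : ‖u‖ ^ 2 = (∫ x in Gd d, ‖u x‖ ^ 2) + ∫ x in (Gd d)ᶜ, ‖u x‖ ^ 2 := by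
    rw [norm_sq_int, integral_add_compl (meas_Gd d) (int_sq u)]
  obtain ⟨G, hG⟩ : ∃ G, G = ∑ k, ‖g k‖ ^ 2 := ⟨_, rfl⟩
  obtain ⟨I1, hI1⟩ : ∃ I1, I1 = ∫ x in Gd d, ‖u x‖ ^ 2 := ⟨_, rfl⟩
  obtain ⟨I2, hI2⟩ : ∃ I2, I2 = ∫ x in (Gd d)ᶜ, ‖u x‖ ^ 2 := ⟨_, rfl⟩
  obtain ⟨I3, hI3⟩ : ∃ I3, I3 = ∫ x, (V x).re * ‖u x‖ ^ 2 := ⟨_, rfl⟩
  rw [← hG, ← hI3, hin] at hen
  rw [← hG, ← hI1] at hpoi
  rw [← hI1, ← hI2] at hsplit
  rw [← hI2, ← hI3] at hout
  have hG0 : 0 ≤ G := by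
    rw [hG]
    exact Finset.sum_nonneg fun k _ => sq_nonneg _
  have hm0 : (0 : ℝ) < m ^ 2 := by
    have : (1 : ℝ) ≤ m := by exact_mod_cast hm
    positivity
  have hCm : M * (C / (m : ℝ) ^ 2 * G) ≤ h ^ 2 * G := by
    have h1 : M * (C / (m : ℝ) ^ 2) ≤ h ^ 2 := by
      rw [← mul_div_assoc, div_le_iff₀ hm0]
      nlinarith [mul_pos hC hM]
    calc M * (C / (m : ℝ) ^ 2 * G) = M * (C / (m : ℝ) ^ 2) * G := by ring
      _ ≤ h ^ 2 * G := mul_le_mul_of_nonneg_right h1 hG0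
  have h5 : M * I1 ≤ M * (0 ^ 2 + C / (m : ℝ) ^ 2 * G) := mul_le_mul_of_nonneg_left hpoi hM.le
  have h6 : M * ‖u‖ ^ 2 ≤ l * ‖u‖ ^ 2 := by
    calc M * ‖u‖ ^ 2 = M * I1 + M * I2 := by rw [hsplit]; ring
      _ ≤ M * (0 ^ 2 + C / (m : ℝ) ^ 2 * G) + I3 := add_le_add h5 hout
      _ = M * (C / (m : ℝ) ^ 2 * G) + I3 := by ring
      _ ≤ h ^ 2 * G + I3 := by linarith
      _ = ∑ i, E i * ‖s i‖ ^ 2 := hen
      _ ≤ l * ‖u‖ ^ 2 := hle
  exact absurd (le_of_mul_le_mul_right h6 hun) (not_le.2 hl)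

lemma num_low (M l A r : ℝ) (hM : 24 ≤ M) (hl : M / 12 ≤ l) (hA0 : 0 < A)
    (hrA : (1 + l) * r ≤ A) (hkey : (A - r) ^ 2 ≤ (M / 24 * A) * r) : False := by
  have hM0 : 0 < M := by linarith
  have hl0 : 0 < l := by linarith
  have h10 : l * A ≤ (1 + l) * (A - r) := by nlinarith
  have h11 : (l * A) ^ 2 ≤ ((1 + l) * (A - r)) ^ 2 :=
    pow_le_pow_left₀ (mul_pos hl0 hA0).le h10 2
  have h12 : ((1 + l) * (A - r)) ^ 2 ≤ (1 + l) * (M / 24 * A) * ((1 + l) * r) := by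
    calc ((1 + l) * (A - r)) ^ 2 = (1 + l) ^ 2 * (A - r) ^ 2 := by ring
      _ ≤ (1 + l) ^ 2 * ((M / 24 * A) * r) := mul_le_mul_of_nonneg_left hkey (sq_nonneg _)
      _ = _ := by ring
  have h13 : (1 + l) * (M / 24 * A) * ((1 + l) * r) ≤ (1 + l) * (M / 24 * A) * A :=
    mul_le_mul_of_nonneg_left hrA (by positivity)
  have h14 : l ^ 2 * A ^ 2 ≤ (1 + l) * (M / 24) * A ^ 2 := by
    calc l ^ 2 * A ^ 2 = (l * A) ^ 2 := by ring
      _ ≤ (1 + l) * (M / 24 * A) * A := h11.trans (h12.trans h13)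
      _ = _ := by ring
  have h15 : l ^ 2 ≤ (1 + l) * (M / 24) := le_of_mul_le_mul_right h14 (by positivity)
  have h16 : (1 + l) * (M / 24) ≤ (1 + l) * (l / 2) :=
    mul_le_mul_of_nonneg_left (by linarith) (by linarith)
  nlinarith

/-- at least as many eigenvalues as test functions -/
lemma count_low (hE0 : S_E0) {d : ℕ} (h M l : ℝ)
    (V : Ed d → ℂ) (hV : FB V) (hV0 : ∀ x, 0 ≤ (V x).re) (hVQ : ∀ x ∈ Q0 d, V x = 0)
    (hM : 24 ≤ M) (hl : M / 12 ≤ l)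
    (T P : L2d d →L[ℂ] L2d d)
    (hT : ∀ f, Hu h V (T f) (f - T f))
    (hfin : FiniteDimensional ℂ (LinearMap.range (P : L2d d →ₗ[ℂ] L2d d)))
    (hcomp : ∀ v, P v = 0 → (1 + l) * ‖T v‖ ≤ ‖v‖)
    (N : ℕ) (θ : Fin N → L2d d) (g : Fin N → Fin d → L2d d) (hθ : LinearIndependent ℂ θ)
    (hg : ∀ i, IsGrad (θ i) (g i)) (hsup : ∀ i, ∀ᵐ x, x ∉ Q0 d → (θ i) x = 0)
    (hbd : ∀ s : Fin N → ℂ,
      h ^ 2 * (∑ k, ‖∑ i, s i • g i k‖ ^ 2) ≤ M / 24 * ‖∑ i, s i • θ i‖ ^ 2) :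
    N ≤ Module.finrank ℂ (LinearMap.range (P : L2d d →ₗ[ℂ] L2d d)) := by
  by_contra hcon
  obtain ⟨s, hs, hPs⟩ := ker_ne P N (not_le.1 hcon) θ hθ
  have hb := hbd s
  have hGu := grad_sum θ g s hg
  have hzero := ae_sum θ s (Q0 d) hsup
  obtain ⟨u, hu⟩ : ∃ u, u = ∑ i, s i • θ i := ⟨_, rfl⟩
  obtain ⟨G, hG⟩ : ∃ G : Fin d → L2d d, G = fun k => ∑ i, s i • g i k := ⟨_, rfl⟩
  rw [← hu] at hs hPs hb hGu hzero
  rw [← hG] at hGu
  have hb' : h ^ 2 * (∑ k, ‖G k‖ ^ 2) ≤ M / 24 * ‖u‖ ^ 2 := by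
    rw [hG]
    exact hb
  have hc := hcomp u hPs
  obtain ⟨y, hy⟩ : ∃ y, y = T u := ⟨_, rfl⟩
  have hHu := hT u
  rw [← hy] at hc hHu
  obtain ⟨gy, hgy, hweak⟩ := id hHu
  have hw := hweak u G hGu
  have hint : ∫ x, V x * y x * (starRingEnd ℂ) (u x) = 0 := by
    rw [integral_congr_ae (g := fun _ => 0)]
    · simp
    · filter_upwards [hzero] with x hx
      by_cases hxQ : x ∈ Q0 d
      · rw [hVQ x hxQ]
        simp
      · rw [hx hxQ]
        simp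
  rw [hint, add_zero] at hw
  have hen := (hE0 d h V y _ gy hV hHu hgy).1
  have hV3 : 0 ≤ ∫ x, (V x).re * ‖y x‖ ^ 2 :=
    integral_nonneg fun x => mul_nonneg (hV0 x) (sq_nonneg _)
  obtain ⟨A, hA⟩ : ∃ A, A = ‖u‖ ^ 2 := ⟨_, rfl⟩
  obtain ⟨r, hr⟩ : ∃ r, r = (⟪y, u⟫_ℂ).re := ⟨_, rfl⟩
  have hr' : (⟪u, y⟫_ℂ).re = r := by
    rw [hr, ← inner_conj_symm, Complex.conj_re]
  have huu : (⟪u, u⟫_ℂ).re = A := by
    rw [hA]
    exact inner_self_eq_norm_sq (𝕜 := ℂ) u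
  have hyy : (⟪y, y⟫_ℂ).re = ‖y‖ ^ 2 := inner_self_eq_norm_sq (𝕜 := ℂ) y
  rw [inner_sub_right, Complex.sub_re, ← hr, hyy] at hen
  have hwre : h ^ 2 * (∑ k, ⟪G k, gy k⟫_ℂ).re = A - r := by
    have h1 := congrArg Complex.re hw
    rw [Complex.re_ofReal_mul, inner_sub_right, Complex.sub_re, huu, hr'] at h1
    exact h1
  obtain ⟨a, ha⟩ : ∃ a : Fin d → ℝ, a = fun k => ‖G k‖ := ⟨_, rfl⟩
  obtain ⟨b, hbb⟩ : ∃ b : Fin d → ℝ, b = fun k => ‖gy k‖ := ⟨_, rfl⟩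
  have hcs : (∑ k, ⟪G k, gy k⟫_ℂ).re ≤ ∑ k, a k * b k := by
    refine (Complex.re_le_norm _).trans ((norm_sum_le _ _).trans ?_)
    apply Finset.sum_le_sum
    intro k _
    rw [ha, hbb]
    exact norm_inner_le_norm _ _
  have hcs2 : (∑ k, a k * b k) ^ 2 ≤ (∑ k, a k ^ 2) * ∑ k, b k ^ 2 :=
    Finset.sum_mul_sq_le_sq_mul_sq _ _ _
  have hA0 : 0 < A := by
    have := norm_pos_iff.2 hs
    rw [hA]
    positivity
  have hb2 : h ^ 2 * (∑ k, a k ^ 2) ≤ M / 24 * A := by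
    rw [hA, ha]
    exact hb'
  have hen2 : h ^ 2 * (∑ k, b k ^ 2) ≤ r := by
    rw [hbb]
    have := sq_nonneg ‖y‖
    simp only at hen ⊢
    linarith
  have hq0 : 0 ≤ h ^ 2 * (∑ k, b k ^ 2) := by positivity
  have hrA : (1 + l) * r ≤ A := by
    have h1 : r ≤ ‖y‖ * ‖u‖ := by
      rw [hr]
      exact (Complex.re_le_norm _).trans (norm_inner_le_norm _ _)
    have h2 : (1 + l) * ‖y‖ * ‖u‖ ≤ ‖u‖ * ‖u‖ := mul_le_mul_of_nonneg_right hc (norm_nonneg _)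
    have h3 : (1 + l) * r ≤ (1 + l) * (‖y‖ * ‖u‖) := mul_le_mul_of_nonneg_left h1 (by linarith)
    rw [hA]
    nlinarith
  have hr0 : 0 ≤ r := hq0.trans hen2
  have hAr : 0 ≤ A - r := by nlinarith
  have hkey : (A - r) ^ 2 ≤ (M / 24 * A) * r := by
    have h1 : A - r ≤ h ^ 2 * ∑ k, a k * b k := by
      rw [← hwre]
      exact mul_le_mul_of_nonneg_left hcs (sq_nonneg _)
    have h2 : (A - r) ^ 2 ≤ (h ^ 2 * ∑ k, a k * b k) ^ 2 := pow_le_pow_left₀ hAr h1 2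
    have h3 : (h ^ 2 * ∑ k, a k * b k) ^ 2 ≤
        (h ^ 2 * ∑ k, a k ^ 2) * (h ^ 2 * ∑ k, b k ^ 2) := by
      rw [mul_pow]
      calc (h ^ 2) ^ 2 * (∑ k, a k * b k) ^ 2 ≤
          (h ^ 2) ^ 2 * ((∑ k, a k ^ 2) * ∑ k, b k ^ 2) :=
            mul_le_mul_of_nonneg_left hcs2 (by positivity)
        _ = _ := by ring
    have h4 : (h ^ 2 * ∑ k, a k ^ 2) * (h ^ 2 * ∑ k, b k ^ 2) ≤ (M / 24 * A) * r :=
      mul_le_mul hb2 hen2 hq0 (mul_nonneg (by linarith) hA0.le)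
    exact h2.trans (h3.trans h4)
  exact num_low M l A r hM hl hA0 hrA hkey

theorem in2 : S_RZ → S_ONB → S_COMP → S_EXT → S_RES → S_SUB → S_SYM → S_E0 → S_KAP → S_POT →
    S_IN2 := by
  intro hRZ hONB hCOMP hEXT hRES hSUB hSYM hE0 hKAP hPOT d W M χ b φ a h C l η m Q hd hW hM hL
    hh hC hm hQ hCM hl1 hl2 hη hη1 hgap
  have hM0 : 0 < M := by linarith
  have hl2' : 2 ≤ l := by linarith
  have hl0 : 0 < l := by linarith
  obtain ⟨V, hVdef⟩ : ∃ V, V = Vin W M χ := ⟨_, rfl⟩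
  have hFB : FB V := by
    rw [hVdef]
    exact (hPOT d W M χ b φ a hW hM0 hL).2.1
  have hV0 : ∀ x, 0 ≤ (V x).re := by
    intro x
    rw [hVdef, Vin]
    split_ifs
    · rw [Complex.ofReal_re]
      exact hW.nonneg x
    · rw [Complex.ofReal_re]
      exact hM0.le
  have hVim : ∀ x, (V x).im = 0 := by
    intro x
    rw [hVdef, Vin]
    split_ifs <;> rw [Complex.ofReal_im]
  have hVM : ∀ x, x ∉ Gd d → M ≤ (V x).re := by
    intro x hx
    have h1 : χ x = 0 := by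
      by_contra hc
      exact hx (hL.χG x hc)
    rw [hVdef, Vin, if_neg (by simpa using h1), Complex.ofReal_re]
  have hVQ : ∀ x ∈ Q0 d, V x = 0 := by
    intro x hx
    rw [hVdef, Vin, if_pos (by rw [hL.χQ x hx]; norm_num), hW.zero x hx, Complex.ofReal_zero]
  rw [← hVdef] at hgap ⊢
  clear hVdef
  obtain ⟨H, hH, hH0⟩ := hSUB d h V hFB
  have hHpos : ∀ u f, (u, f) ∈ H → 0 ≤ (⟪u, f⟫_ℂ).re ∧ (⟪u, f⟫_ℂ).im = 0 := by
    intro u f huf
    have huf' := (hH u f).1 huf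
    obtain ⟨g, hg, _⟩ := id huf'
    obtain ⟨h1, h2⟩ := hE0 d h V u f g hFB huf' hg
    constructor
    · rw [← h1]
      have h3 : 0 ≤ ∫ x, (V x).re * ‖u x‖ ^ 2 :=
        integral_nonneg fun x => mul_nonneg (hV0 x) (sq_nonneg _)
      have h4 : 0 ≤ ∑ k, ‖g k‖ ^ 2 := Finset.sum_nonneg fun k _ => sq_nonneg _
      exact add_nonneg (mul_nonneg (sq_nonneg _) h4) h3
    · rw [← h2]
      simp [hVim]
  -- the resolvent at `-1`
  obtain ⟨T, hT1, hT2, hT3⟩ := hRES d h V 0 hh hFB hV0 (fun u => by simp)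
  have hT1' : ∀ f, Hu h V (T f) (f - T f) := by
    intro f
    have := hT1 f
    simpa using this
  have hTR : IsR H (-1) T := by
    constructor
    · intro f
      rw [hH]
      have := hT1' f
      rwa [neg_one_smul, ← sub_eq_add_neg]
    · intro u f huf
      apply hT2 u f
      rw [hH, neg_one_smul, ← sub_eq_add_neg] at huf
      simpa using huf
  have hTs : ∀ v w, ⟪T v, w⟫_ℂ = ⟪v, T w⟫_ℂ := by
    intro v w
    have h1 := (hSYM d h V hFB (T w) (w - T w) (T v) (v - T v) (hT1' w) (hT1' v)).2 hVim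
    rw [inner_sub_right, inner_sub_left] at h1
    linear_combination h1
  have hTp : ∀ v, 0 ≤ (⟪T v, v⟫_ℂ).re := by
    intro v
    have h1 := (hHpos (T v) (v - T v) ((hH _ _).2 (hT1' v))).1
    rw [inner_sub_right, Complex.sub_re] at h1
    have h2 : (⟪T v, T v⟫_ℂ).re = ‖T v‖ ^ 2 := inner_self_eq_norm_sq (𝕜 := ℂ) _
    rw [h2] at h1
    nlinarith [sq_nonneg ‖T v‖]
  -- the circle
  obtain ⟨z₀, hz₀⟩ : ∃ z₀ : ℂ, z₀ = (((l - 1 / 2) / 2 : ℝ) : ℂ) := ⟨_, rfl⟩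
  obtain ⟨ρ, hρ⟩ : ∃ ρ : ℝ, ρ = (l + 1 / 2) / 2 := ⟨_, rfl⟩
  obtain ⟨K, hK⟩ : ∃ K : ℝ, K = 2 / η + 4 + 2 / (η ^ 2 / (4 * (l + 1 / 2))) := ⟨_, rfl⟩
  have hK0 : 0 ≤ K := by rw [hK]; positivity
  have hρ0 : 0 < ρ := by rw [hρ]; linarith
  have hw : ρ < ‖(-1 : ℂ) - z₀‖ := by
    rw [hz₀, hρ]
    have h1 : (-1 : ℂ) - (((l - 1 / 2) / 2 : ℝ) : ℂ) = ((-1 - (l - 1 / 2) / 2 : ℝ) : ℂ) := by
      push_cast
      ring
    rw [h1, Complex.norm_real, Real.norm_eq_abs, abs_of_neg (by linarith)]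
    linarith
  have hsymm : ∀ u f v g, (u, f) ∈ H → (v, g) ∈ H →
      ⟪(star v : L2d d), f⟫_ℂ = ⟪(star g : L2d d), u⟫_ℂ := by
    intro u f v g huf hvg
    exact (hSYM d h V hFB u f v g ((hH _ _).1 huf) ((hH _ _).1 hvg)).1
  have hgap' : ∀ v f, (v, (l : ℂ) • v + f) ∈ H → η * ‖v‖ ≤ ‖f‖ := by
    intro v f hv
    exact hgap v f ((hH _ _).1 hv)
  have hcirc : ∀ z, ‖z - z₀‖ = ρ → ∃ R, IsR H z R ∧ ‖R‖ ≤ K := by
    intro z hz
    apply hEXT (L2d d) H (fun x => star x) T z K st_add st_smul (fun x => star_star x) st_inner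
      hsymm hTR hK0
    intro u f huf
    rw [hK]
    rw [hz₀, hρ] at hz
    exact apriori H l η hl2' hη hη1 hHpos hgap' z hz u f huf
  -- the ball
  obtain ⟨B, hB⟩ : ∃ B : L2d d →L[ℂ] L2d d, B = ((4 * M : ℝ) : ℂ) • Q := ⟨_, rfl⟩
  have hBa : ∀ u, B u = ((4 * M : ℝ) : ℂ) • Q u := by
    intro u
    rw [hB]
    rfl
  have hQfin := hQ.fin
  have hBc : IsCompactOperator B := by
    have h1 := (compact_of_fin Q).smul ((4 * M : ℝ) : ℂ)
    have h2 : (B : L2d d → L2d d) = ((4 * M : ℝ) : ℂ) • (Q : L2d d → L2d d) := by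
      rw [hB]
      rfl
    rw [h2]
    exact h1
  have hBpos : ∀ u, 0 ≤ (⟪u, B u⟫_ℂ).re := by
    intro u
    have h1 : ⟪u, Q u⟫_ℂ = ⟪Q u, Q u⟫_ℂ := by
      conv_lhs => rw [← hQ.idem u]
      exact (hQ.sa u (Q u)).symm
    have h2 : (⟪Q u, Q u⟫_ℂ).re = ‖Q u‖ ^ 2 := inner_self_eq_norm_sq (𝕜 := ℂ) _
    rw [hBa, inner_smul_right, h1, Complex.re_ofReal_mul, h2]
    positivity
  have hBstar : ∀ u v, ⟪(star v : L2d d), B u⟫_ℂ = ⟪(star (B v) : L2d d), u⟫_ℂ := by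
    intro u v
    rw [hBa, hBa, inner_smul_right, st_smul, inner_smul_left, Complex.conj_conj, ← hQ.conj,
      hQ.sa]
  obtain ⟨T', hT'1, hT'2, hT'3⟩ := hRES d h V B hh hFB hV0 hBpos
  have hT'R : IsR (plusB H B) (-1) T' := by
    constructor
    · intro f
      rw [mem_plusB, hH]
      have := hT'1 f
      rwa [neg_one_smul, ← sub_eq_add_neg]
    · intro u f huf
      apply hT'2 u f
      rwa [mem_plusB, hH, neg_one_smul, ← sub_eq_add_neg] at huf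
  have hball : ∀ z, ‖z - z₀‖ ≤ ρ → ∃ R, IsR (plusB H B) z R ∧ ‖R‖ ≤ 1 := by
    intro z hz
    have hzre : z.re ≤ M / 2 := by
      have h1 : |(z - z₀).re| ≤ ρ := (Complex.abs_re_le_norm _).trans hz
      have h2 := (abs_le.1 h1).2
      rw [Complex.sub_re, hz₀, Complex.ofReal_re, hρ] at h2
      linarith
    apply hEXT (L2d d) (plusB H B) (fun x => star x) T' z 1 st_add st_smul
      (fun x => star_star x) st_inner ?_ hT'R zero_le_one
    · intro u f huf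
      rw [one_mul]
      rw [mem_plusB, hH, hBa] at huf
      have h2 : f + z • u - ((4 * M : ℝ) : ℂ) • Q u = z • u - ((4 * M : ℝ) : ℂ) • Q u + f := by
        abel
      rw [h2] at huf
      exact (hKAP d h M C m Q V u f z hh (by linarith) hC hm hFB hV0 hQ hCM hzre huf).2 hVM
    · intro u f v g huf hvg
      rw [mem_plusB] at huf hvg
      have h1 := hsymm _ _ _ _ huf hvg
      have h2 : (star g : L2d d) = star (g - B v) + star (B v) := by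
        rw [← st_add, sub_add_cancel]
      rw [h2, inner_add_left, ← h1, inner_sub_right, hBstar]
      ring
  obtain ⟨P, hP1, hP2, hP3, hP4, hP5⟩ := hRZ (L2d d) H z₀ (-1) ρ K T B hρ0 hK0 hw hTR hcirc hBc
    ⟨1, hball⟩
  obtain ⟨ψ, E, hψ, hPψ, hE0', hEH⟩ := hONB (L2d d) H T P hH0 hTR hTs hTp hT3 hP1 hP2 hP3
  have hElt : ∀ j, E j ≤ l - η := by
    intro j
    have hne : ψ j ≠ 0 := hψ.ne_zero j
    have h1 := hP4 (ψ j) (E j) hne (hPψ j) (hEH j)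
    rw [hz₀, ← Complex.ofReal_sub, Complex.norm_real, Real.norm_eq_abs, hρ] at h1
    have h2 := (abs_lt.1 h1).2
    have h3 : E j < l := by linarith
    have h4 : (ψ j, (l : ℂ) • ψ j + ((E j - l : ℝ) : ℂ) • ψ j) ∈ H := by
      have h5 : (l : ℂ) • ψ j + ((E j - l : ℝ) : ℂ) • ψ j = (E j : ℂ) • ψ j := by
        push_cast
        module
      rw [h5]
      exact hEH j
    have h5 := hgap' _ _ h4
    rw [norm_smul, hψ.1 j, mul_one, mul_one, Complex.norm_real, Real.norm_eq_abs,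
      abs_of_neg (by linarith)] at h5
    linarith
  refine ⟨_, ψ, E, ?_, hψ, fun j => ⟨(hH _ _).1 (hEH j), hE0' j, hElt j⟩, ?_⟩
  · exact count_up hE0 h M C l m Q V hFB hV0 hVM hQ hM0 hC hm hCM (by linarith) H hH _ ψ E hψ
      hEH (fun j => (hElt j).trans (by linarith))
  · intro N θ g hθ hg hsup hbd
    refine count_low hE0 h M l V hFB hV0 hVQ hM hl1 T P hT1' hP2 ?_ N θ g hθ hg hsup hbd
    refine hCOMP (L2d d) H z₀ ρ K l T P hρ0 hK0 hl0.le hTR hTs hTp hT3 hP3 ?_ hP5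
    intro e he0 hel
    rw [hz₀, ← Complex.ofReal_sub, Complex.norm_real, Real.norm_eq_abs, hρ, abs_lt]
    constructor <;> linarith

end Pool.Agent.W762.CP
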